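import Mathlib
import Pool.Agent.Y364.NL.Main

set_option autoImplicit false

/-!
# Non-evasive simplicial balls that are not locally constructible

The definitions (`IsCx`, `realization`, `IsBall`, `IsFacet`, `AtMostTwo`, `IsLC`, `NonEvasive`)
are in `Pool.Agent.H933R3.Defs`.  The example in dimension `d` is the join of a 3-ball with 12
vertices and 38 tetrahedra, which has a knotted spanning edge, with a simplex with `d - 3`
vertices.
-/

namespace Pool.Agent.Results.MP_9638d9_co.NonEvasiveNotLC

open Pool.Agent.H933R3

/-- In every dimension `d ≥ 4` there is a triangulated `d`-ball that is non-evasive but not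
locally constructible. -/
theorem result (d : ℕ) (hd : 4 ≤ d) : ∃ (n : ℕ) (K : Finset (Finset (Fin n))),
    IsCx K ∧ IsBall d K ∧ (∀ F, IsFacet K F → F.card = d + 1) ∧ AtMostTwo d K ∧
      NonEvasive K ∧ ¬ IsLC d K :=
  Pool.Agent.Y364.NL.main d hd

end Pool.Agent.Results.MP_9638d9_co.NonEvasiveNotLC
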