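import Mathlib
import Pool.Agent.Y364.E3.Tree

set_option autoImplicit false

/-!
# Non-evasive 3-balls are locally constructible

The definitions `IsCx`, `realization`, `IsBall`, `IsFacet`, `AtMostTwo`, `SameFace`, `NonEvasive`
are in `Pool.Agent.H933R3.Defs`, the definitions `TreeStage`, `GlueStage`, `IsTreeLC` are in
`Pool.Agent.Y364.E3.Tree`.
-/

namespace Pool.Agent.Results.MP_9638d9_co.NonEvasiveThreeBallLC

open Pool.Agent.H933R3 Pool.Agent.Y364.E3

/-- Every non-evasive triangulated 3-ball is locally constructible. -/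
theorem result (n : ℕ) (K : Finset (Finset (Fin n))) (hK : IsCx K) (hB : IsBall 3 K)
    (h : NonEvasive K) : IsTreeLC 3 K :=
  Pool.Agent.Y364.E3.main hK hB h

end Pool.Agent.Results.MP_9638d9_co.NonEvasiveThreeBallLC
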